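import Pool.Agent.W586.GK.LZ3

/-!
Project GK, part LZ: the defects are small for large `z` (assembly).
-/

namespace Pool.Agent.W586.GK

open MeasureTheory Matrix Pool.Agent.W792.GK

section abstract

variable {Q : Type} [Fintype Q] [DecidableEq Q] {X : Type} [MeasurableSpace X]

/-- The abstract estimate of the defects. -/
lemma defects (P : Measure X) [IsProbabilityMeasure P] (Yp Gr kp W : X → Matrix Q Q ℂ)
    (F : X → ℝ) (y b : ℝ) (c : ℂ) (hy : 0 ≤ y) (hb : 0 ≤ b)
    (hYm : ∀ i j, Measurable fun w => Yp w i j) (hGm : ∀ i j, Measurable fun w => Gr w i j)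
    (hF : Integrable F P)
    (hWY : ∀ᵐ w ∂P, W w * Yp w = 1) (hYW : ∀ᵐ w ∂P, Yp w * W w = 1)
    (hGr : ∀ᵐ w ∂P, Gr w = Yp w + Yp w * kp w * Yp w)
    (hkF : ∀ᵐ w ∂P, e1 (kp w) ≤ F w) (hkb : ∀ᵐ w ∂P, e1 (kp w) ≤ b)
    (hYy : ∀ᵐ w ∂P, e1 (Yp w) ≤ y)
    (g m : Matrix Q Q ℂ) (hg : ∀ i j, ∫ w, Yp w i j ∂P = g i j)
    (hm : ∀ i j, ∫ w, Gr w i j ∂P = m i j) :
    (∫ w, e1 (1 - (W w + c • (g - m)) * Gr w) ∂P
      ≤ (y + ‖c‖ * y ^ 2 * (y + y * b * y)) * ∫ w, F w ∂P) ∧
    (∫ w, e1 (1 - Gr w * (W w + c • (g - m))) ∂P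
      ≤ (y + ‖c‖ * y ^ 2 * (y + y * b * y)) * ∫ w, F w ∂P) := by
  have hGb : ∀ᵐ w ∂P, e1 (Gr w) ≤ y + y * b * y := by
    filter_upwards [hGr, hkb, hYy] with w h1 h2 h3
    rw [h1]
    refine (e1_add _ _).trans (add_le_add h3 ?_)
    refine (e1_mul _ _).trans ?_
    refine mul_le_mul ((e1_mul _ _).trans ?_) h3 (e1_nonneg _) (by positivity)
    exact mul_le_mul h3 h2 (e1_nonneg _) hy
  have hent : ∀ (A : Matrix Q Q ℂ) (i j : Q), ‖A i j‖ ≤ e1 A := by
    intro A i j
    unfold e1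
    refine le_trans ?_ (Finset.single_le_sum (f := fun i => ∑ j, ‖A i j‖)
      (fun l _ => Finset.sum_nonneg fun _ _ => norm_nonneg _) (Finset.mem_univ i))
    exact Finset.single_le_sum (f := fun j => ‖A i j‖) (fun l _ => norm_nonneg _)
      (Finset.mem_univ j)
  have hYi : ∀ i j, Integrable (fun w => Yp w i j) P := by
    intro i j
    refine Integrable.of_bound (hYm i j).aestronglyMeasurable y ?_
    filter_upwards [hYy] with w h1
    exact (hent _ _ _).trans h1
  have hGi : ∀ i j, Integrable (fun w => Gr w i j) P := by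
    intro i j
    refine Integrable.of_bound (hGm i j).aestronglyMeasurable (y + y * b * y) ?_
    filter_upwards [hGb] with w h1
    exact (hent _ _ _).trans h1
  have hF0 : ∀ᵐ w ∂P, 0 ≤ F w := by
    filter_upwards [hkF] with w h1
    exact (e1_nonneg _).trans h1
  have hFI : 0 ≤ ∫ w, F w ∂P := integral_nonneg_of_ae hF0
  have hgm : e1 (g - m) ≤ y ^ 2 * ∫ w, F w ∂P := by
    have h1 : ∀ i j, ‖(g - m) i j‖ ≤ ∫ w, ‖(Yp w - Gr w) i j‖ ∂P := by
      intro i j
      rw [Matrix.sub_apply, ← hg, ← hm, ← integral_sub (hYi i j) (hGi i j)]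
      exact norm_integral_le_integral_norm _
    calc e1 (g - m) ≤ ∑ i, ∑ j, ∫ w, ‖(Yp w - Gr w) i j‖ ∂P := by
          unfold e1
          exact Finset.sum_le_sum fun i _ => Finset.sum_le_sum fun j _ => h1 i j
      _ = ∫ w, e1 (Yp w - Gr w) ∂P := by
          unfold e1
          rw [integral_finsetSum]
          · refine Finset.sum_congr rfl fun i _ => ?_
            rw [integral_finsetSum]
            intro j _
            exact ((hYi i j).sub (hGi i j)).norm
          · intro i _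
            refine integrable_finsetSum _ fun j _ => ?_
            exact ((hYi i j).sub (hGi i j)).norm
      _ ≤ ∫ w, y ^ 2 * F w ∂P := by
          refine integral_mono_of_nonneg (Filter.Eventually.of_forall fun w => e1_nonneg _)
            (hF.const_mul _) ?_
          filter_upwards [hGr, hkF, hYy] with w h1 h2 h3
          have h4 : Yp w - Gr w = -(Yp w * kp w * Yp w) := by
            rw [h1]
            abel
          rw [h4, e1_neg]
          refine (e1_mul _ _).trans ?_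
          calc e1 (Yp w * kp w) * e1 (Yp w) ≤ (y * F w) * y := by
                refine mul_le_mul ((e1_mul _ _).trans ?_) h3 (e1_nonneg _)
                  (mul_nonneg hy ((e1_nonneg _).trans h2))
                exact mul_le_mul h3 h2 (e1_nonneg _) hy
            _ = y ^ 2 * F w := by ring
      _ = y ^ 2 * ∫ w, F w ∂P := integral_const_mul _ _
  have hfin : ∀ H : X → Matrix Q Q ℂ,
      (∀ᵐ w ∂P, e1 (H w) ≤ F w * y + ‖c‖ * e1 (g - m) * (y + y * b * y)) →
      ∫ w, e1 (H w) ∂P ≤ (y + ‖c‖ * y ^ 2 * (y + y * b * y)) * ∫ w, F w ∂P := by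
    intro H hH
    calc ∫ w, e1 (H w) ∂P ≤ ∫ w, (F w * y + ‖c‖ * e1 (g - m) * (y + y * b * y)) ∂P :=
          integral_mono_of_nonneg (Filter.Eventually.of_forall fun w => e1_nonneg _)
            ((hF.mul_const _).add (integrable_const _)) hH
      _ = (∫ w, F w ∂P) * y + ‖c‖ * e1 (g - m) * (y + y * b * y) := by
          rw [integral_add (hF.mul_const _) (integrable_const _), integral_mul_const,
            integral_const]
          simp
      _ ≤ (∫ w, F w ∂P) * y + ‖c‖ * (y ^ 2 * ∫ w, F w ∂P) * (y + y * b * y) := by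
          gcongr
      _ = _ := by ring
  constructor
  · refine hfin _ ?_
    filter_upwards [hWY, hGr, hkF, hYy, hGb] with w h1 h2 h3 h4 h5
    have h6 : 1 - (W w + c • (g - m)) * Gr w = -(kp w * Yp w) + -(c • ((g - m) * Gr w)) := by
      have : (W w + c • (g - m)) * Gr w = W w * Gr w + c • ((g - m) * Gr w) := by
        rw [add_mul, smul_mul_assoc]
      rw [this]
      have h7 : W w * Gr w = 1 + kp w * Yp w := by
        rw [h2]
        calc W w * (Yp w + Yp w * kp w * Yp w) = (W w * Yp w) * (1 + kp w * Yp w) := by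
              noncomm_ring
          _ = _ := by rw [h1, one_mul]
      rw [h7]
      abel
    rw [h6]
    refine (e1_add _ _).trans ?_
    rw [e1_neg, e1_neg, e1_smul]
    refine add_le_add ((e1_mul _ _).trans ?_) ?_
    · exact mul_le_mul h3 h4 (e1_nonneg _) ((e1_nonneg _).trans h3)
    · rw [mul_assoc]
      refine mul_le_mul_of_nonneg_left ((e1_mul _ _).trans ?_) (norm_nonneg _)
      exact mul_le_mul_of_nonneg_left h5 (e1_nonneg _)
  · refine hfin _ ?_
    filter_upwards [hYW, hGr, hkF, hYy, hGb] with w h1 h2 h3 h4 h5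
    have h6 : 1 - Gr w * (W w + c • (g - m)) = -(Yp w * kp w) + -(c • (Gr w * (g - m))) := by
      have : Gr w * (W w + c • (g - m)) = Gr w * W w + c • (Gr w * (g - m)) := by
        rw [mul_add, mul_smul_comm]
      rw [this]
      have h7 : Gr w * W w = 1 + Yp w * kp w := by
        rw [h2]
        calc (Yp w + Yp w * kp w * Yp w) * W w = (1 + Yp w * kp w) * (Yp w * W w) := by
              noncomm_ring
          _ = _ := by rw [h1, mul_one]
      rw [h7]
      abel
    rw [h6]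
    refine (e1_add _ _).trans ?_
    rw [e1_neg, e1_neg, e1_smul]
    refine add_le_add ((e1_mul _ _).trans ?_) ?_
    · rw [mul_comm]
      exact mul_le_mul h3 h4 (e1_nonneg _) ((e1_nonneg _).trans h3)
    · rw [mul_assoc, mul_comm (e1 (g - m))]
      refine mul_le_mul_of_nonneg_left ((e1_mul _ _).trans ?_) (norm_nonneg _)
      exact mul_le_mul_of_nonneg_right h5 (e1_nonneg _)

end abstract

section word

lemma meas_word {Q J X : Type} [Fintype Q] [DecidableEq Q] [Fintype J] [DecidableEq J]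
    [MeasurableSpace X] (S : Matrix (Q × J) (Q × J) ℂ) (Yo : X → Matrix (Q × J) (Q × J) ℂ)
    (hY : ∀ i j, Measurable fun w => Yo w i j) (k : ℕ) (p : J) :
    Measurable fun w => e1 (blk (S * (Yo w * S) ^ k) p p) := by
  refine meas_e1 fun i j => ?_
  have h1 : ∀ i j, Measurable fun w => (Yo w * S) i j :=
    meas_mul hY (fun _ _ => measurable_const)
  have h2 : ∀ i j, Measurable fun w => ((Yo w * S) ^ k) i j := fun i j => meas_pow h1 k i j
  have h3 : ∀ i j, Measurable fun w => (S * (Yo w * S) ^ k) i j :=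
    meas_mul (fun _ _ => measurable_const) h2
  exact h3 (i, p) (j, p)

end word

section final

open scoped Matrix.Norms.L2Operator

lemma norm_mul_npow_le {N : Type} [Fintype N] [DecidableEq N] (M : Matrix N N ℂ) {b : ℝ}
    (h : ‖M‖ ≤ b) (k : ℕ) (Z : Matrix N N ℂ) : ‖Z * M ^ k‖ ≤ ‖Z‖ * b ^ k := by
  induction k with
  | zero => simp
  | succ k ih =>
    rw [pow_succ, ← mul_assoc, pow_succ, ← mul_assoc]
    refine (norm_mul_le _ _).trans ?_
    exact mul_le_mul ih h (norm_nonneg _)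
      (mul_nonneg (norm_nonneg _) (pow_nonneg ((norm_nonneg _).trans h) _))

lemma e1_blk_le {Q J : Type} [Fintype Q] [DecidableEq Q] [Fintype J] [DecidableEq J]
    (M : Matrix (Q × J) (Q × J) ℂ) {b : ℝ} (h : ‖M‖ ≤ b) (p q : J) :
    e1 (blk M p q) ≤ (Fintype.card Q : ℝ) ^ 2 * b :=
  e1_le_of_entry _ fun i j => (norm_entry_le M (i, p) (j, q)).trans h

lemma blk_sum {Q J ι : Type} (s : Finset ι) (M : ι → Matrix (Q × J) (Q × J) ℂ) (p q : J) :
    blk (∑ k ∈ s, M k) p q = ∑ k ∈ s, blk (M k) p q := by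
  ext x y
  simp [blk, Matrix.sum_apply]

theorem main : S_LF → S_FP → S_SER → S_LZ := by
  intro hLF hFP hSER Q _ _ _ κ s R C hs hR hD hC z hz ε hε
  have hz0 : 64 ≤ ‖z‖ := by linarith
  have hzpos : 0 < ‖z‖ := by linarith
  obtain ⟨q2, hq2⟩ : ∃ q2 : ℝ, q2 = (Fintype.card Q : ℝ) ^ 2 := ⟨_, rfl⟩
  have hq2n : 0 ≤ q2 := by rw [hq2]; positivity
  obtain ⟨a, ha⟩ : ∃ a : ℝ, a = 8 * s := ⟨_, rfl⟩
  have hapos : 0 < a := by rw [ha]; positivity
  obtain ⟨b, hb⟩ : ∃ b : ℝ, b = 4 / ‖z‖ := ⟨_, rfl⟩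
  have hbpos : 0 < b := by rw [hb]; positivity
  have hab : a * b ≤ 1 / 2 := by
    rw [ha, hb, ← mul_div_assoc, div_le_iff₀ hzpos]
    linarith
  obtain ⟨y, hy⟩ : ∃ y : ℝ, y = q2 * (2 / ‖z‖) := ⟨_, rfl⟩
  have hyn : 0 ≤ y := by rw [hy]; positivity
  obtain ⟨b', hb'⟩ : ∃ b' : ℝ, b' = q2 * (2 * a) := ⟨_, rfl⟩
  have hb'n : 0 ≤ b' := by rw [hb']; positivity
  obtain ⟨Θ, hΘ⟩ : ∃ Θ : ℝ, Θ = y + s ^ 2 * y ^ 2 * (y + y * b' * y) := ⟨_, rfl⟩
  have hΘn : 0 ≤ Θ := by rw [hΘ]; positivity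
  -- choice of `K`
  obtain ⟨K, hK⟩ : ∃ K : ℕ, Θ * (q2 * ((1 / 2) ^ K * (2 * a))) ≤ ε / 2 := by
    obtain ⟨K, hK⟩ := exists_pow_lt_of_lt_one (x := ε / (2 * (Θ * q2 * (2 * a) + 1)))
      (y := (1 / 2 : ℝ)) (by positivity) (by norm_num)
    refine ⟨K, ?_⟩
    have h1 : (1 / 2 : ℝ) ^ K * (2 * (Θ * q2 * (2 * a) + 1)) < ε := by
      rwa [lt_div_iff₀ (by positivity)] at hK
    have h2 : 0 ≤ (1 / 2 : ℝ) ^ K := by positivity
    nlinarith
  choose cK hcK0 hcK using fun k => LF_scaled hLF k Q a b hapos hbpos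
  obtain ⟨M, hM⟩ : ∃ M : ℝ, M = ∑ k ∈ Finset.range K, cK k := ⟨_, rfl⟩
  have hMn : 0 ≤ M := by rw [hM]; exact Finset.sum_nonneg fun k _ => hcK0 k
  obtain ⟨η, hη⟩ : ∃ η : ℝ, η = ε / (2 * (M * Θ + 1)) := ⟨_, rfl⟩
  have hηpos : 0 < η := by rw [hη]; positivity
  obtain ⟨n₀, hn₀⟩ : ∃ n₀ : ℕ, 8 * s * (1 / 2 : ℝ) ^ n₀ ≤ η / 2 := by
    obtain ⟨n₀, hn₀⟩ := exists_pow_lt_of_lt_one (x := η / (16 * s))
      (y := (1 / 2 : ℝ)) (by positivity) (by norm_num)
    refine ⟨n₀, ?_⟩
    rw [lt_div_iff₀ (by positivity)] at hn₀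
    linarith
  refine ⟨η / 4, n₀, by positivity, ?_⟩
  intro J _ _ A p ν _ hν hAdm
  -- the fiber operators
  obtain ⟨D, hDdef⟩ : ∃ D : (Q → ℝ) → Matrix Q Q ℂ, D = fun w => (fun x y' : Q =>
    κ (x - y') + (if x = y' then ((clamp R (w x) : ℝ) : ℂ) else 0)) := ⟨_, rfl⟩
  have hDm : ∀ x y, Measurable fun w => D w x y := by
    intro x y'
    simp only [hDdef]
    refine measurable_const.add ?_
    by_cases h : x = y'
    · simp only [h, if_true]
      exact Complex.measurable_ofReal.comp ((measurable_clamp R).comp (measurable_pi_apply y'))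
    · simp only [h, if_false]
      exact measurable_const
  have hDB : ∀ w, OpB (D w) C := by
    intro w
    rw [hDdef]
    exact hD (fun x => clamp R (w x)) (fun x => abs_clamp_le hR _)
  obtain ⟨g, Y, hYm, hgB, hYB, hYW, hWY, hYg⟩ := hFP Q C s hC hs z (by linarith) (Q → ℝ)
    (Measure.pi fun _ : Q => ν) D hDm hDB
  have h2z : 0 ≤ 2 / ‖z‖ := by positivity
  have hgN : ‖g‖ ≤ 2 / ‖z‖ := (opB_iff g h2z).1 hgB
  have hYN : ∀ w, ‖Y w‖ ≤ 2 / ‖z‖ := fun w => (opB_iff _ h2z).1 (hYB w)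
  obtain ⟨S, hSB, -, hSeq, hSent⟩ := hSER Q J s (2 / ‖z‖) hs h2z (by
    rw [div_le_div_iff₀ hzpos (by positivity)]
    linarith) g hgB A hAdm.2.1
  have hSN : ‖S‖ ≤ a := by
    rw [ha]
    exact (opB_iff S (by positivity)).1 hSB
  obtain ⟨ε', hε'⟩ : ∃ ε' : ℝ, ε' = 2 * (η / 4) + 8 * s * (1 / 2) ^ n₀ := ⟨_, rfl⟩
  have hε'n : 0 ≤ ε' := by rw [hε']; positivity
  have hε'η : ε' ≤ η := by rw [hε']; linarith
  have hSe : ∀ i j x y, ‖S (x, i) (y, j)‖ ≤ ε' := by
    intro i j x y'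
    rw [hε']
    exact hSent (η / 4) n₀ (by positivity) hAdm.2.2 x i y' j
  -- the centred blocks
  have hfN : ∀ w, ‖Y w - g‖ ≤ b := by
    intro w
    refine (norm_sub_le _ _).trans ?_
    rw [hb]
    calc ‖Y w‖ + ‖g‖ ≤ 2 / ‖z‖ + 2 / ‖z‖ := add_le_add (hYN w) hgN
      _ = 4 / ‖z‖ := by ring
  have hfm : ∀ x y, Measurable fun w => (Y w - g) x y := by
    intro x y'
    simp only [Matrix.sub_apply]
    exact (hYm x y').sub measurable_const
  have hYi : ∀ x y, Integrable (fun w => Y w x y) (Measure.pi fun _ : Q => ν) := by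
    intro x y'
    refine Integrable.of_bound (hYm x y').aestronglyMeasurable (2 / ‖z‖) ?_
    exact Filter.Eventually.of_forall fun w => (norm_entry_le _ _ _).trans (hYN w)
  have hf0 : ∀ x y, ∫ w, (Y w - g) x y ∂(Measure.pi fun _ : Q => ν) = 0 := by
    intro x y'
    simp only [Matrix.sub_apply]
    rw [integral_sub (hYi x y') (integrable_const _), hYg, integral_const]
    simp
  obtain ⟨P, hP⟩ : ∃ P : Measure (J → Q → ℝ),
    P = Measure.pi fun _ : J => Measure.pi fun _ : Q => ν := ⟨_, rfl⟩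
  have : IsProbabilityMeasure P := by rw [hP]; infer_instance
  -- the functions
  obtain ⟨Yo, hYo⟩ : ∃ Yo : (J → Q → ℝ) → Matrix (Q × J) (Q × J) ℂ,
    Yo = fun ω => Matrix.blockDiagonal fun j => Y (ω j) - g := ⟨_, rfl⟩
  have hYoN : ∀ ω, ‖Yo ω‖ ≤ b := by
    intro ω
    rw [hYo]
    exact norm_blockDiagonal_le _ hbpos.le fun j => hfN _
  have hYom : ∀ i j, Measurable fun ω => Yo ω i j := by
    rintro ⟨x, i⟩ ⟨y', j⟩
    rw [hYo]
    simp only [Matrix.blockDiagonal_apply]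
    by_cases h : i = j
    · simp only [h, if_true]
      exact (hfm x y').comp (measurable_pi_apply j)
    · simp only [h, if_false]
      exact measurable_const
  obtain ⟨Fk, hFk⟩ : ∃ Fk : ℕ → (J → Q → ℝ) → ℝ,
    Fk = fun k ω => e1 (blk (S * (Yo ω * S) ^ k) p p) := ⟨_, rfl⟩
  have hFkm : ∀ k, Measurable (Fk k) := by
    intro k
    rw [hFk]
    exact meas_word S Yo hYom k p
  have hFki : ∀ k, Integrable (Fk k) P := by
    intro k
    refine Integrable.of_bound (hFkm k).aestronglyMeasurable (q2 * (a * (b * a) ^ k)) ?_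
    refine Filter.Eventually.of_forall fun ω => ?_
    rw [hFk, Real.norm_eq_abs, abs_of_nonneg (e1_nonneg _), hq2]
    refine e1_blk_le _ ?_ p p
    have h1 : ‖Yo ω * S‖ ≤ b * a :=
      (norm_mul_le _ _).trans (mul_le_mul (hYoN ω) hSN (norm_nonneg _) hbpos.le)
    refine (norm_mul_npow_le _ h1 k S).trans ?_
    exact mul_le_mul_of_nonneg_right hSN (by positivity)
  have hFkI : ∀ k, ∫ ω, Fk k ω ∂P ≤ cK k * ε' := by
    intro k
    rw [hFk, hP, hYo]
    exact hcK k J (Q → ℝ) (Measure.pi fun _ : Q => ν) (fun _ w => Y w - g)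
      (fun _ x y => hfm x y) (fun _ w => hfN w) (fun _ x y => hf0 x y) S hSN ε' hε'n hSe p
  obtain ⟨F, hFdef⟩ : ∃ F : (J → Q → ℝ) → ℝ, F = fun ω =>
    (∑ k ∈ Finset.range K, Fk k ω) + q2 * ((1 / 2) ^ K * (2 * a)) := ⟨_, rfl⟩
  have hFi : Integrable F P := by
    rw [hFdef]
    exact (integrable_finsetSum _ fun k _ => hFki k).add (integrable_const _)
  have hFI : ∫ ω, F ω ∂P ≤ M * ε' + q2 * ((1 / 2) ^ K * (2 * a)) := by
    rw [hFdef, integral_add (integrable_finsetSum _ fun k _ => hFki k) (integrable_const _),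
      integral_finsetSum _ fun k _ => hFki k, integral_const]
    simp only [probReal_univ, one_smul]
    rw [hM, Finset.sum_mul]
    gcongr
    exact hFkI _
  -- the resolvent
  choose kap hkap1 hkap2 hkap3 using fun ω => exists_kap S (Yo ω) hbpos.le hSN (hYoN ω) hab
  have hkF : ∀ ω, e1 (blk (kap ω) p p) ≤ F ω := by
    intro ω
    rw [hFdef, hFk]
    have h1 := kap_expand S (Yo ω) (kap ω) (hkap1 ω) K
    have h2 : blk (kap ω) p p = (∑ k ∈ Finset.range K, blk (S * (Yo ω * S) ^ k) p p)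
        + blk ((S * Yo ω) ^ K * kap ω) p p := by
      rw [← blk_sum, ← blk_add, ← h1]
    rw [h2]
    refine (e1_add _ _).trans (add_le_add (e1_sum _ _) ?_)
    rw [hq2]
    refine e1_blk_le _ ?_ p p
    refine (norm_npow_le _ (hkap3 ω) K _).trans ?_
    exact mul_le_mul_of_nonneg_left (hkap2 ω) (by positivity)
  have hkb : ∀ ω, e1 (blk (kap ω) p p) ≤ b' := by
    intro ω
    rw [hb', hq2]
    exact e1_blk_le _ (hkap2 ω) p p
  have hae : ∀ᵐ ω ∂P, ∀ j x, |ω j x| ≤ R := by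
    rw [hP]
    exact ae_bound ν hν
  have hdd : ∀ ω : J → Q → ℝ, (∀ j x, |ω j x| ≤ R) → ∀ j, dd κ (psi ω) j = D (ω j) := by
    intro ω hω j
    rw [hDdef]
    ext x y'
    simp only [dd, psi]
    rw [clamp_eq (hω j x)]
  obtain ⟨W, hW⟩ : ∃ W : (J → Q → ℝ) → Matrix Q Q ℂ, W = fun ω =>
    dd κ (psi ω) p - z • (1 : Matrix Q Q ℂ) - ((s ^ 2 : ℝ) : ℂ) • g := ⟨_, rfl⟩
  have hgI : ∀ i j, ∫ ω, Y (ω p) i j ∂P = g i j := by
    intro i j
    rw [← hYg i j, hP]
    have h1 := (measurePreserving_eval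
      (fun _ : J => (Measure.pi fun _ : Q => ν : Measure (Q → ℝ))) p).map_eq
    conv_rhs => rw [← h1]
    rw [integral_map (measurable_pi_apply p).aemeasurable (hYm i j).aestronglyMeasurable]
  have hmI : ∀ i j, ∫ ω, gr κ A (psi ω) z p i j ∂P = mg κ A ν z p i j := by
    intro i j
    rw [hP]
    unfold mg
    rw [integral_pm]
  have hpsi : Measurable (psi : (J → Q → ℝ) → (Q × J → ℝ)) := (psiE Q J).measurable
  have hdef := defects P (fun ω => Y (ω p)) (fun ω => gr κ A (psi ω) z p)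
    (fun ω => blk (kap ω) p p) W F y b' ((s ^ 2 : ℝ) : ℂ) hyn hb'n
    (fun i j => (hYm i j).comp (measurable_pi_apply p))
    (fun i j => (cont_gr κ A z p i j).comp hpsi) hFi
    (by
      filter_upwards [hae] with ω hω
      rw [hW]
      simp only [hdd ω hω]
      exact hWY _)
    (by
      filter_upwards [hae] with ω hω
      rw [hW]
      simp only [hdd ω hω]
      exact hYW _)
    (by
      filter_upwards [hae] with ω hω
      refine gr_eq κ A (psi ω) z ((s ^ 2 : ℝ) : ℂ) g (fun j => Y (ω j)) ?_ S (kap ω) hSeq ?_ p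
      · intro j
        rw [hdd ω hω]
        exact hWY _
      · have := hkap1 ω
        rw [hYo] at this
        exact this)
    (Filter.Eventually.of_forall hkF) (Filter.Eventually.of_forall hkb)
    (Filter.Eventually.of_forall fun ω => by
      rw [hy, hq2]
      exact e1_le_norm _ (hYN _))
    g (mg κ A ν z p) hgI hmI
  have hcn : ‖((s ^ 2 : ℝ) : ℂ)‖ = s ^ 2 := by
    rw [Complex.norm_real, Real.norm_eq_abs, abs_of_nonneg (by positivity)]
  rw [hcn, ← hΘ] at hdef
  have hlast : Θ * ∫ ω, F ω ∂P ≤ ε := by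
    have h1 : Θ * ∫ ω, F ω ∂P ≤ Θ * (M * ε' + q2 * ((1 / 2) ^ K * (2 * a))) :=
      mul_le_mul_of_nonneg_left hFI hΘn
    have h2 : Θ * (M * ε') ≤ ε / 2 := by
      have h3 : Θ * (M * ε') ≤ Θ * (M * η) := by gcongr
      have h4 : η * (2 * (M * Θ + 1)) = ε := by
        rw [hη]
        field_simp
      nlinarith
    linarith
  rw [integral_pm, integral_pm, ← hP]
  constructor
  · refine le_trans (le_of_eq ?_) (hdef.1.trans hlast)
    refine integral_congr_ae (Filter.Eventually.of_forall fun ω => ?_)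
    simp only [hL, hW]
    congr 3
    rw [smul_sub]
    abel
  · refine le_trans (le_of_eq ?_) (hdef.2.trans hlast)
    refine integral_congr_ae (Filter.Eventually.of_forall fun ω => ?_)
    simp only [Pool.Agent.W792.GK.hR, hW]
    congr 3
    rw [smul_sub]
    abel

end final

end Pool.Agent.W586.GK
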