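import Pool.Agent.W792.GK.Stm

/-!
Project GK, part LZ: tools for the Euclidean operator norm, blocks and the entrywise norm.
-/

namespace Pool.Agent.W586.GK

open MeasureTheory Matrix Pool.Agent.W792.GK
open scoped Matrix.Norms.L2Operator

section norms

variable {n : Type} [Fintype n] [DecidableEq n]

lemma opB_iff (A : Matrix n n ℂ) {c : ℝ} (hc : 0 ≤ c) : OpB A c ↔ ‖A‖ ≤ c := by
  constructor
  · intro h
    rw [← Matrix.l2_opNorm_toEuclideanCLM]
    refine ContinuousLinearMap.opNorm_le_bound _ hc fun u => ?_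
    have h1 := h u.ofLp
    rw [← sq_le_sq₀ (norm_nonneg _) (by positivity), mul_pow, EuclideanSpace.norm_sq_eq,
      EuclideanSpace.norm_sq_eq]
    simpa using h1
  · intro h u
    have h1 := (Matrix.toEuclideanCLM (n := n) (𝕜 := ℂ) A).le_opNorm (WithLp.toLp 2 u)
    rw [Matrix.l2_opNorm_toEuclideanCLM] at h1
    have h2 : ‖(Matrix.toEuclideanCLM (n := n) (𝕜 := ℂ) A) (WithLp.toLp 2 u)‖
        ≤ c * ‖(WithLp.toLp 2 u : EuclideanSpace ℂ n)‖ :=
      h1.trans (mul_le_mul_of_nonneg_right h (norm_nonneg _))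
    rw [← sq_le_sq₀ (norm_nonneg _) (by positivity), mul_pow, EuclideanSpace.norm_sq_eq,
      EuclideanSpace.norm_sq_eq] at h2
    simpa using h2

lemma norm_entry_le (A : Matrix n n ℂ) (i j : n) : ‖A i j‖ ≤ ‖A‖ := by
  have h := (opB_iff A (norm_nonneg A)).2 le_rfl (Pi.single j 1)
  have h2 : ∑ k, ‖(Pi.single j (1 : ℂ) : n → ℂ) k‖ ^ 2 = 1 := by
    rw [Finset.sum_eq_single j]
    · simp
    · intro b _ hb
      simp [Pi.single_eq_of_ne hb]
    · simp
  rw [h2, mul_one] at h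
  have h3 : ‖A i j‖ ^ 2 ≤ ‖A‖ ^ 2 := by
    refine le_trans ?_ h
    have h4 : ‖(A.mulVec (Pi.single j (1 : ℂ))) i‖ ^ 2 = ‖A i j‖ ^ 2 := by
      rw [Matrix.mulVec_single_one]
      rfl
    rw [← h4]
    exact Finset.single_le_sum (f := fun k => ‖(A.mulVec (Pi.single j (1 : ℂ))) k‖ ^ 2)
      (fun k _ => by positivity) (Finset.mem_univ i)
  exact (sq_le_sq₀ (norm_nonneg _) (norm_nonneg _)).1 h3

omit [DecidableEq n] in
lemma e1_nonneg (A : Matrix n n ℂ) : 0 ≤ e1 A :=
  Finset.sum_nonneg fun _ _ => Finset.sum_nonneg fun _ _ => norm_nonneg _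

omit [DecidableEq n] in
lemma e1_add (A B : Matrix n n ℂ) : e1 (A + B) ≤ e1 A + e1 B := by
  unfold e1
  rw [← Finset.sum_add_distrib]
  refine Finset.sum_le_sum fun i _ => ?_
  rw [← Finset.sum_add_distrib]
  exact Finset.sum_le_sum fun j _ => norm_add_le _ _

omit [DecidableEq n] in
lemma e1_neg (A : Matrix n n ℂ) : e1 (-A) = e1 A := by
  unfold e1
  simp

omit [DecidableEq n] in
lemma e1_zero : e1 (0 : Matrix n n ℂ) = 0 := by
  unfold e1
  simp

omit [DecidableEq n] in
lemma e1_smul (c : ℂ) (A : Matrix n n ℂ) : e1 (c • A) = ‖c‖ * e1 A := by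
  unfold e1
  simp [Finset.mul_sum]

omit [DecidableEq n] in
lemma e1_sum {ι : Type} (s : Finset ι) (f : ι → Matrix n n ℂ) :
    e1 (∑ i ∈ s, f i) ≤ ∑ i ∈ s, e1 (f i) := by
  classical
  induction s using Finset.induction_on with
  | empty => simp [e1_zero]
  | insert a s ha ih =>
    rw [Finset.sum_insert ha, Finset.sum_insert ha]
    exact (e1_add _ _).trans (by linarith)

omit [DecidableEq n] in
lemma e1_mul (A B : Matrix n n ℂ) : e1 (A * B) ≤ e1 A * e1 B := by
  unfold e1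
  rw [Finset.sum_mul]
  refine Finset.sum_le_sum fun i _ => ?_
  calc ∑ j, ‖(A * B) i j‖ ≤ ∑ j, ∑ k, ‖A i k‖ * ‖B k j‖ := by
        refine Finset.sum_le_sum fun j _ => ?_
        rw [Matrix.mul_apply]
        refine (norm_sum_le _ _).trans ?_
        exact Finset.sum_le_sum fun k _ => by rw [norm_mul]
    _ = ∑ k, ‖A i k‖ * ∑ j, ‖B k j‖ := by
        rw [Finset.sum_comm]
        exact Finset.sum_congr rfl fun k _ => by rw [Finset.mul_sum]
    _ ≤ ∑ k, ‖A i k‖ * ∑ l, ∑ j, ‖B l j‖ := by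
        refine Finset.sum_le_sum fun k _ => ?_
        refine mul_le_mul_of_nonneg_left ?_ (norm_nonneg _)
        exact Finset.single_le_sum (f := fun l => ∑ j, ‖B l j‖)
          (fun l _ => Finset.sum_nonneg fun _ _ => norm_nonneg _) (Finset.mem_univ k)
    _ = (∑ k, ‖A i k‖) * ∑ l, ∑ j, ‖B l j‖ := by rw [Finset.sum_mul]

omit [DecidableEq n] in
lemma e1_le_of_entry (A : Matrix n n ℂ) {b : ℝ} (h : ∀ i j, ‖A i j‖ ≤ b) :
    e1 A ≤ (Fintype.card n : ℝ) ^ 2 * b := by
  unfold e1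
  calc ∑ i, ∑ j, ‖A i j‖ ≤ ∑ _i : n, ∑ _j : n, b :=
        Finset.sum_le_sum fun i _ => Finset.sum_le_sum fun j _ => h i j
    _ = (Fintype.card n : ℝ) ^ 2 * b := by
        simp only [Finset.sum_const, Finset.card_univ, nsmul_eq_mul]
        ring

lemma e1_le_norm (A : Matrix n n ℂ) {b : ℝ} (h : ‖A‖ ≤ b) :
    e1 A ≤ (Fintype.card n : ℝ) ^ 2 * b :=
  e1_le_of_entry A fun i j => (norm_entry_le A i j).trans h

end norms

section blocks

variable {Q J : Type} [Fintype Q] [DecidableEq Q] [Fintype J] [DecidableEq J]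

omit [DecidableEq Q] [DecidableEq J] in
lemma blk_add (A B : Matrix (Q × J) (Q × J) ℂ) (i j : J) :
    blk (A + B) i j = blk A i j + blk B i j := rfl

omit [DecidableEq Q] in
lemma blk_blockDiagonal_mul (X : J → Matrix Q Q ℂ) (Z : Matrix (Q × J) (Q × J) ℂ) (i j : J) :
    blk (Matrix.blockDiagonal X * Z) i j = X i * blk Z i j := by
  ext x y
  simp only [blk, Matrix.mul_apply, Fintype.sum_prod_type, Matrix.blockDiagonal_apply]
  refine Finset.sum_congr rfl fun k _ => ?_
  rw [Finset.sum_eq_single i]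
  · simp
  · intro b _ hb
    rw [if_neg (Ne.symm hb), zero_mul]
  · simp

omit [DecidableEq Q] in
lemma blk_mul_blockDiagonal (X : J → Matrix Q Q ℂ) (Z : Matrix (Q × J) (Q × J) ℂ) (i j : J) :
    blk (Z * Matrix.blockDiagonal X) i j = blk Z i j * X j := by
  ext x y
  simp only [blk, Matrix.mul_apply, Fintype.sum_prod_type, Matrix.blockDiagonal_apply]
  refine Finset.sum_congr rfl fun k _ => ?_
  rw [Finset.sum_eq_single j]
  · simp
  · intro b _ hb
    rw [if_neg hb, mul_zero]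
  · simp

omit [Fintype Q] [DecidableEq Q] [Fintype J] in
lemma blk_blockDiagonal (X : J → Matrix Q Q ℂ) (i : J) :
    blk (Matrix.blockDiagonal X) i i = X i := by
  ext x y
  simp [blk, Matrix.blockDiagonal_apply]

lemma norm_blockDiagonal_le (X : J → Matrix Q Q ℂ) {b : ℝ} (hb : 0 ≤ b)
    (h : ∀ j, ‖X j‖ ≤ b) : ‖Matrix.blockDiagonal X‖ ≤ b := by
  rw [← opB_iff _ hb]
  intro u
  have h1 : ∀ (x : Q) (j : J), ((Matrix.blockDiagonal X).mulVec u) (x, j)
      = ((X j).mulVec fun y => u (y, j)) x := by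
    intro x j
    simp only [Matrix.mulVec, dotProduct, Fintype.sum_prod_type, Matrix.blockDiagonal_apply]
    refine Finset.sum_congr rfl fun y _ => ?_
    rw [Finset.sum_eq_single j]
    · simp
    · intro i _ hi
      rw [if_neg (Ne.symm hi), zero_mul]
    · simp
  rw [Fintype.sum_prod_type_right, Fintype.sum_prod_type_right, Finset.mul_sum]
  refine Finset.sum_le_sum fun j _ => ?_
  have h2 := (opB_iff (X j) hb).2 (h j) (fun y => u (y, j))
  simp only [h1]
  exact h2

end blocks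

end Pool.Agent.W586.GK
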