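import Pool.Agent.W586.GK.LZ1

/-!
Project GK, part LZ: resolvent identity, rescaled freeness lemma, change of variables.
-/

namespace Pool.Agent.W586.GK

open MeasureTheory Matrix Pool.Agent.W792.GK
open scoped Matrix.Norms.L2Operator

section ring

lemma res_id {A : Type*} [Ring A] (B W G S Yo kap : A) (hB : B * (1 + G * S) = -S)
    (hW : W * (G + Yo) = 1) (hk : kap = S + S * Yo * kap) :
    (B + W) * ((G + Yo) + (G + Yo) * kap * (G + Yo)) = 1 := by
  have h1 : 1 + (G + Yo) * kap = (1 + G * S) * (1 + Yo * kap) := by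
    have : (1 + G * S) * (1 + Yo * kap) = 1 + Yo * kap + G * (S + S * Yo * kap) := by
      noncomm_ring
    rw [this, ← hk]
    noncomm_ring
  have h2 : B * (1 + (G + Yo) * kap) = -kap := by
    rw [h1, ← mul_assoc, hB]
    have : -S * (1 + Yo * kap) = -(S + S * Yo * kap) := by noncomm_ring
    rw [this, ← hk]
  calc (B + W) * ((G + Yo) + (G + Yo) * kap * (G + Yo))
      = (B * (1 + (G + Yo) * kap)) * (G + Yo) + (W * (G + Yo)) * (1 + kap * (G + Yo)) := by
        noncomm_ring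
    _ = 1 := by
        rw [h2, hW]
        noncomm_ring

lemma kap_expand {A : Type*} [Ring A] (S Yo kap : A) (hk : kap = S + S * Yo * kap) (K : ℕ) :
    kap = (∑ k ∈ Finset.range K, S * (Yo * S) ^ k) + (S * Yo) ^ K * kap := by
  induction K with
  | zero => simp
  | succ K ih =>
    have h1 : (S * Yo) ^ K * S = S * (Yo * S) ^ K := by
      clear ih
      induction K with
      | zero => simp
      | succ K ih =>
        rw [pow_succ', mul_assoc, ih, pow_succ']
        noncomm_ring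
    have h2 : (S * Yo) ^ K * kap = S * (Yo * S) ^ K + (S * Yo) ^ (K + 1) * kap := by
      calc (S * Yo) ^ K * kap = (S * Yo) ^ K * (S + S * Yo * kap) := by rw [← hk]
        _ = (S * Yo) ^ K * S + (S * Yo) ^ (K + 1) * kap := by
            rw [mul_add, pow_succ]
            noncomm_ring
        _ = _ := by rw [h1]
    rw [Finset.sum_range_succ, add_assoc, ← h2]
    exact ih

end ring

section kap

variable {N : Type} [Fintype N] [DecidableEq N]

/-- Existence of `kap`. -/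
lemma exists_kap (S Yo : Matrix N N ℂ) {a b : ℝ} (hb : 0 ≤ b) (hS : ‖S‖ ≤ a) (hY : ‖Yo‖ ≤ b)
    (hab : a * b ≤ 1 / 2) : ∃ kap : Matrix N N ℂ, kap = S + S * Yo * kap ∧ ‖kap‖ ≤ 2 * a ∧
      ‖S * Yo‖ ≤ 1 / 2 := by
  have ha : 0 ≤ a := (norm_nonneg _).trans hS
  have h1 : ‖S * Yo‖ ≤ 1 / 2 :=
    (norm_mul_le _ _).trans ((mul_le_mul hS hY (norm_nonneg _) ha).trans hab)
  have h2 : ‖S * Yo‖ < 1 := by linarith
  obtain ⟨u, hu⟩ : IsUnit (1 - S * Yo) := ⟨Units.oneSub (S * Yo) h2, rfl⟩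
  obtain ⟨V, hV⟩ : ∃ V : Matrix N N ℂ, (1 - S * Yo) * V = 1 :=
    ⟨((u⁻¹ : (Matrix N N ℂ)ˣ) : Matrix N N ℂ), by rw [← hu, Units.mul_inv]⟩
  obtain ⟨kap, hkap⟩ : ∃ kap : Matrix N N ℂ, kap = V * S := ⟨_, rfl⟩
  have h3 : (1 - S * Yo) * kap = S := by rw [hkap, ← mul_assoc, hV, one_mul]
  have h4 : kap = S + S * Yo * kap := by
    calc kap = (1 - S * Yo) * kap + S * Yo * kap := by noncomm_ring
      _ = _ := by rw [h3]
  refine ⟨kap, h4, ?_, h1⟩
  have h5 : ‖kap‖ ≤ a + 1 / 2 * ‖kap‖ := by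
    calc ‖kap‖ = ‖S + S * Yo * kap‖ := by rw [← h4]
      _ ≤ ‖S‖ + ‖S * Yo‖ * ‖kap‖ := (norm_add_le _ _).trans (by gcongr; exact norm_mul_le _ _)
      _ ≤ a + 1 / 2 * ‖kap‖ := by gcongr
  linarith

lemma norm_npow_le (M : Matrix N N ℂ) {b : ℝ} (h : ‖M‖ ≤ b) (k : ℕ) (Z : Matrix N N ℂ) :
    ‖M ^ k * Z‖ ≤ b ^ k * ‖Z‖ := by
  induction k with
  | zero => simp
  | succ k ih =>
    rw [pow_succ', mul_assoc, pow_succ', mul_assoc]
    refine (norm_mul_le _ _).trans ?_
    exact mul_le_mul h ih (norm_nonneg _) ((norm_nonneg _).trans h)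

end kap

section LF

/-- Rescaled freeness lemma. -/
lemma LF_scaled (hLF : S_LF) (k : ℕ) (Q : Type) [Fintype Q] [DecidableEq Q] (a b : ℝ)
    (ha : 0 < a) (hb : 0 < b) : ∃ c : ℝ, 0 ≤ c ∧
    ∀ (J : Type) [Fintype J] [DecidableEq J] (Ω : Type) [MeasurableSpace Ω] (μ : Measure Ω)
      [IsProbabilityMeasure μ] (f : J → Ω → Matrix Q Q ℂ),
      (∀ j x y, Measurable fun w => f j w x y) → (∀ j w, ‖f j w‖ ≤ b) →
      (∀ j x y, ∫ w, f j w x y ∂μ = 0) →
      ∀ T : Matrix (Q × J) (Q × J) ℂ, ‖T‖ ≤ a → ∀ ε : ℝ, 0 ≤ ε →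
      (∀ i j x y, ‖T (x, i) (y, j)‖ ≤ ε) → ∀ p : J,
      ∫ ω, e1 (blk (T * (Matrix.blockDiagonal (fun j => f j (ω j)) * T) ^ k) p p)
          ∂(Measure.pi fun _ : J => μ) ≤ c * ε := by
  obtain ⟨c, hc, h⟩ := hLF k Q
  refine ⟨a ^ k * b ^ k * c, by positivity, ?_⟩
  intro J _ _ Ω _ μ _ f hf hfb hf0 T hT ε hε hTε p
  have hac : (a : ℂ) ≠ 0 := by exact_mod_cast ha.ne'
  have hbc : (b : ℂ) ≠ 0 := by exact_mod_cast hb.ne'
  set f' : J → Ω → Matrix Q Q ℂ := fun j w => (b : ℂ)⁻¹ • f j w with hf'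
  set T' : Matrix (Q × J) (Q × J) ℂ := (a : ℂ)⁻¹ • T with hT'
  have h1 : (∀ j x y, Measurable fun w => f' j w x y) := by
    intro j x y
    simp only [hf', Matrix.smul_apply, smul_eq_mul]
    exact (hf j x y).const_mul _
  have h2 : ∀ j w, OpB (f' j w) 1 := by
    intro j w
    rw [opB_iff _ zero_le_one, hf', norm_smul, norm_inv, Complex.norm_real, Real.norm_eq_abs,
      abs_of_pos hb]
    rw [inv_mul_le_iff₀ hb, mul_one]
    exact hfb j w
  have h3 : ∀ j x y, ∫ w, f' j w x y ∂μ = 0 := by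
    intro j x y
    simp only [hf', Matrix.smul_apply, smul_eq_mul]
    rw [integral_const_mul, hf0, mul_zero]
  have h4 : OpB T' 1 := by
    rw [opB_iff _ zero_le_one, hT', norm_smul, norm_inv, Complex.norm_real, Real.norm_eq_abs,
      abs_of_pos ha]
    rw [inv_mul_le_iff₀ ha, mul_one]
    exact hT
  have h5 : ∀ i j x y, ‖T' (x, i) (y, j)‖ ≤ ε / a := by
    intro i j x y
    rw [hT', Matrix.smul_apply, norm_smul, norm_inv, Complex.norm_real, Real.norm_eq_abs,
      abs_of_pos ha, div_eq_inv_mul]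
    exact mul_le_mul_of_nonneg_left (hTε i j x y) (by positivity)
  have h6 : ∫ ω, e1 (blk (T' * (Matrix.blockDiagonal (fun j => f' j (ω j)) * T') ^ k) p p)
      ∂(Measure.pi fun _ : J => μ) ≤ c * (ε / a) :=
    h J Ω μ f' h1 h2 h3 T' h4 (ε / a) (by positivity) h5 p
  have h7 : ∀ ω : J → Ω, e1 (blk (T * (Matrix.blockDiagonal (fun j => f j (ω j)) * T) ^ k) p p)
      = a ^ (k + 1) * b ^ k * e1
        (blk (T' * (Matrix.blockDiagonal (fun j => f' j (ω j)) * T') ^ k) p p) := by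
    intro ω
    have h8 : (Matrix.blockDiagonal (fun j => f' j (ω j)) : Matrix (Q × J) (Q × J) ℂ)
        = (b : ℂ)⁻¹ • Matrix.blockDiagonal (fun j => f j (ω j)) := by
      rw [← Matrix.blockDiagonal_smul]
      rfl
    have h9 : T * (Matrix.blockDiagonal (fun j => f j (ω j)) * T) ^ k
        = ((a : ℂ) ^ (k + 1) * (b : ℂ) ^ k) •
          (T' * (Matrix.blockDiagonal (fun j => f' j (ω j)) * T') ^ k) := by
      rw [h8, hT', smul_mul_smul_comm, smul_pow, smul_mul_smul_comm, smul_smul]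
      rw [mul_pow]
      have : (a : ℂ) ^ (k + 1) * (b : ℂ) ^ k * ((a : ℂ)⁻¹ * (((b : ℂ)⁻¹) ^ k * ((a : ℂ)⁻¹) ^ k))
          = 1 := by
        rw [inv_pow, inv_pow, pow_succ]
        field_simp
      rw [this, one_smul]
    rw [h9]
    have h10 : blk (((a : ℂ) ^ (k + 1) * (b : ℂ) ^ k) •
          (T' * (Matrix.blockDiagonal (fun j => f' j (ω j)) * T') ^ k)) p p
        = ((a : ℂ) ^ (k + 1) * (b : ℂ) ^ k) •
        blk (T' * (Matrix.blockDiagonal (fun j => f' j (ω j)) * T') ^ k) p p := rfl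
    rw [h10, e1_smul]
    congr 1
    rw [norm_mul, norm_pow, norm_pow, Complex.norm_real, Complex.norm_real, Real.norm_eq_abs,
      Real.norm_eq_abs, abs_of_pos ha, abs_of_pos hb]
  simp only [h7]
  rw [integral_const_mul]
  calc a ^ (k + 1) * b ^ k * _ ≤ a ^ (k + 1) * b ^ k * (c * (ε / a)) :=
        mul_le_mul_of_nonneg_left h6 (by positivity)
    _ = a ^ k * b ^ k * c * ε := by
        rw [pow_succ]
        field_simp

end LF

section meas

variable {Q J : Type} [Fintype Q] [Fintype J]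

/-- The change of variables `(J → Q → ℝ) → (Q × J → ℝ)`. -/
def psi (ω : J → Q → ℝ) : Q × J → ℝ := fun q => ω q.2 q.1

/-- The change of variables as a measurable equivalence. -/
def psiE (Q J : Type) : (J → Q → ℝ) ≃ᵐ (Q × J → ℝ) where
  toFun ω := fun q => ω q.2 q.1
  invFun v := fun j x => v (x, j)
  left_inv _ := rfl
  right_inv _ := rfl
  measurable_toFun := by
    change Measurable fun (ω : J → Q → ℝ) => fun q : Q × J => ω q.2 q.1
    fun_prop
  measurable_invFun := by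
    change Measurable fun (v : Q × J → ℝ) => fun j x => v (x, j)
    fun_prop

lemma pm_eq_map (ν : Measure ℝ) [IsProbabilityMeasure ν] :
    pm Q J ν = (Measure.pi fun _ : J => Measure.pi fun _ : Q => ν).map (psiE Q J) := by
  unfold pm
  refine Measure.pi_eq fun s hs => ?_
  rw [MeasurableEquiv.map_apply]
  have h1 : (psiE Q J) ⁻¹' (Set.univ.pi s) =
      Set.univ.pi fun j => Set.univ.pi fun x => s (x, j) := by
    ext ω
    simp only [Set.mem_preimage, Set.mem_univ_pi]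
    constructor
    · intro h j x
      exact h (x, j)
    · intro h q
      exact h q.2 q.1
  rw [h1, Measure.pi_pi]
  simp only [Measure.pi_pi]
  rw [Fintype.prod_prod_type_right]

lemma integral_pm {E : Type*} [NormedAddCommGroup E] [NormedSpace ℝ E] (ν : Measure ℝ)
    [IsProbabilityMeasure ν]
    (F : (Q × J → ℝ) → E) : ∫ v, F v ∂(pm Q J ν) =
      ∫ ω, F (psi ω) ∂(Measure.pi fun _ : J => Measure.pi fun _ : Q => ν) := by
  rw [pm_eq_map, integral_map_equiv]
  rfl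

lemma ae_bound (ν : Measure ℝ) [IsProbabilityMeasure ν] {R : ℝ} (hν : ν (Set.Icc (-R) R)ᶜ = 0) :
    ∀ᵐ ω ∂(Measure.pi fun _ : J => Measure.pi fun _ : Q => ν), ∀ j x, |ω j x| ≤ R := by
  rw [ae_all_iff]
  intro j
  rw [ae_all_iff]
  intro x
  have h1 : ∀ᵐ t ∂ν, t ∈ Set.Icc (-R) R := by
    rw [ae_iff]
    exact hν
  have h2 : MeasurePreserving (fun ω : J → Q → ℝ => ω j x)
      (Measure.pi fun _ : J => Measure.pi fun _ : Q => ν) ν :=
    (measurePreserving_eval (fun _ : Q => ν) x).comp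
      (measurePreserving_eval (fun _ : J => Measure.pi fun _ : Q => ν) j)
  filter_upwards [h2.quasiMeasurePreserving.ae h1] with ω hω
  exact abs_le.2 hω

end meas

end Pool.Agent.W586.GK
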