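import Pool.Agent.W586.GK.LZ2

/-!
Project GK, part LZ: the defects are small for large `z`.
-/

namespace Pool.Agent.W586.GK

open MeasureTheory Matrix Pool.Agent.W792.GK

section meas

variable {N : Type} [Fintype N] [DecidableEq N] {X : Type} [MeasurableSpace X]

omit [DecidableEq N] in
lemma meas_mul {A B : X → Matrix N N ℂ} (hA : ∀ i j, Measurable fun w => A w i j)
    (hB : ∀ i j, Measurable fun w => B w i j) (i j : N) :
    Measurable fun w => (A w * B w) i j := by
  simp only [Matrix.mul_apply]
  exact Finset.measurable_sum _ fun k _ => (hA i k).mul (hB k j)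

lemma meas_pow {A : X → Matrix N N ℂ} (hA : ∀ i j, Measurable fun w => A w i j) (k : ℕ)
    (i j : N) : Measurable fun w => ((A w) ^ k) i j := by
  induction k generalizing i j with
  | zero =>
    simp only [pow_zero]
    exact measurable_const
  | succ k ih =>
    simp only [pow_succ]
    exact meas_mul (fun i j => ih i j) hA i j

omit [DecidableEq N] in
lemma meas_e1 {A : X → Matrix N N ℂ} (hA : ∀ i j, Measurable fun w => A w i j) :
    Measurable fun w => e1 (A w) := by
  unfold e1
  exact Finset.measurable_sum _ fun i _ => Finset.measurable_sum _ fun j _ => (hA i j).norm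

lemma cont_gr {Q J : Type} [AddCommGroup Q] [Fintype Q] [DecidableEq Q] [Fintype J]
    [DecidableEq J] (κ : Q → ℂ) (A : Matrix J J ℂ) (z : ℂ) (p : J) (x y : Q) :
    Measurable fun v : Q × J → ℝ => gr κ A v z p x y := by
  have h0 : Continuous fun v : Q × J → ℝ =>
      (ham κ A v - z • (1 : Matrix (Q × J) (Q × J) ℂ)) := by
    refine continuous_matrix fun i j => ?_
    simp only [Matrix.sub_apply, ham]
    refine Continuous.sub (Continuous.add continuous_const ?_) continuous_const
    by_cases h : i = j
    · simp only [h, if_true]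
      exact Complex.continuous_ofReal.comp (continuous_apply j)
    · simp only [h, if_false]
      exact continuous_const
  unfold gr
  simp only [Matrix.inv_def, Matrix.smul_apply, Ring.inverse_eq_inv', smul_eq_mul]
  refine Measurable.mul ?_ ?_
  · exact (h0.matrix_det.measurable).inv
  · exact ((continuous_apply (y, p)).comp
      ((continuous_apply (x, p)).comp h0.matrix_adjugate)).measurable

end meas

section clampS

lemma abs_clamp_le {R : ℝ} (hR : 0 < R) (t : ℝ) : |clamp R t| ≤ R := by
  unfold clamp
  rw [abs_le]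
  exact ⟨le_max_left _ _, max_le (by linarith) (min_le_left _ _)⟩

lemma clamp_eq {R t : ℝ} (h : |t| ≤ R) : clamp R t = t := by
  unfold clamp
  rw [abs_le] at h
  rw [min_eq_right h.2, max_eq_right h.1]

lemma measurable_clamp (R : ℝ) : Measurable (clamp R) := by
  unfold clamp
  exact measurable_const.max (measurable_const.min measurable_id)

end clampS

section determ

open scoped Matrix.Norms.L2Operator

variable {Q J : Type} [AddCommGroup Q] [Fintype Q] [DecidableEq Q] [Fintype J] [DecidableEq J]

lemma ham_split (κ : Q → ℂ) (A : Matrix J J ℂ) (v : Q × J → ℝ) (z : ℂ) (c : ℂ)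
    (g : Matrix Q Q ℂ) :
    ham κ A v - z • (1 : Matrix (Q × J) (Q × J) ℂ) =
      (Matrix.kronecker (1 : Matrix Q Q ℂ) A
        + c • Matrix.kronecker g (1 : Matrix J J ℂ)) +
      Matrix.blockDiagonal (fun j => dd κ v j - z • (1 : Matrix Q Q ℂ) - c • g) := by
  ext ⟨x, i⟩ ⟨y, j⟩
  simp only [ham, dd, Matrix.sub_apply, Matrix.add_apply, Matrix.smul_apply, smul_eq_mul,
    Matrix.blockDiagonal_apply, Matrix.kronecker, Matrix.kroneckerMap_apply, Matrix.one_apply,
    Prod.mk.injEq]
  by_cases h1 : i = j
  · by_cases h2 : x = y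
    · simp only [h1, h2, and_self, if_true]
      ring
    · simp only [h1, h2, false_and, if_true, if_false]
      ring
  · by_cases h2 : x = y
    · simp only [h1, h2, and_false, if_true, if_false]
      ring
    · simp only [h1, h2, and_self, if_false]
      ring

/-- The block of the resolvent. -/
lemma gr_eq (κ : Q → ℂ) (A : Matrix J J ℂ) (v : Q × J → ℝ) (z : ℂ) (c : ℂ)
    (g : Matrix Q Q ℂ) (Y : J → Matrix Q Q ℂ)
    (hY : ∀ j, (dd κ v j - z • (1 : Matrix Q Q ℂ) - c • g) * Y j = 1)
    (S kap : Matrix (Q × J) (Q × J) ℂ)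
    (hS : (Matrix.kronecker (1 : Matrix Q Q ℂ) A
        + c • Matrix.kronecker g (1 : Matrix J J ℂ))
        * (1 + (Matrix.kronecker g (1 : Matrix J J ℂ)) * S) = -S)
    (hk : kap = S + S * (Matrix.blockDiagonal fun j => Y j - g) * kap) (p : J) :
    gr κ A v z p = Y p + Y p * blk kap p p * Y p := by
  have hG : Matrix.kronecker g (1 : Matrix J J ℂ) = Matrix.blockDiagonal (fun _ => g) :=
    Matrix.kronecker_one g
  have hYd : (Matrix.kronecker g (1 : Matrix J J ℂ)) + (Matrix.blockDiagonal fun j => Y j - g)
      = Matrix.blockDiagonal Y := by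
    rw [hG, ← Matrix.blockDiagonal_add]
    congr 1
    funext j
    simp
  have hW : Matrix.blockDiagonal (fun j => dd κ v j - z • (1 : Matrix Q Q ℂ) - c • g) *
      ((Matrix.kronecker g (1 : Matrix J J ℂ)) + (Matrix.blockDiagonal fun j => Y j - g)) = 1 := by
    rw [hYd, ← Matrix.blockDiagonal_mul]
    simp only [hY]
    exact Matrix.blockDiagonal_one
  have h1 := res_id _ _ _ S _ kap hS hW hk
  rw [← ham_split, hYd] at h1
  have h2 := Matrix.inv_eq_right_inv h1
  have h3 : gr κ A v z p = blk ((ham κ A v - z • (1 : Matrix (Q × J) (Q × J) ℂ))⁻¹) p p := rfl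
  rw [h3, h2, blk_add, blk_blockDiagonal, blk_mul_blockDiagonal, blk_blockDiagonal_mul]

end determ

end Pool.Agent.W586.GK
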